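import Pool.Agent.Helper18.RL.Goals

/-!
Packet RL-SPG: separations pass to the gadget graph.
-/

set_option autoImplicit false

namespace Pool.Agent.Helper3.RL

open Finset Pool.Agent.Helper18.RL

/-- Separations in which the gadget vertex is on the left side; `W` is empty or one vertex. -/
theorem left_choice {V : Type} [Fintype V] [DecidableEq V] {R R' : V → V → Prop}
    {K S T S' L Z W : Finset V} {a b c x₀ : V} (hG : Gad R R' K a b c x₀)
    (ha : a ∉ K) (hb : b ∉ K) (hc : c ∉ K) (hx : x₀ ∈ K) (hTK : Disjoint T K)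
    (hSK : Disjoint (S \ {x₀}) K) (hSS : S \ {a, b, c, x₀} ⊆ S')
    (hLZ : Disjoint L Z) (hS : S' ⊆ L ∪ Z) (hT : Disjoint L T)
    (hcl : ∀ x ∈ L, ∀ y, R x y → y ∈ L ∪ Z)
    (hN : ∀ v ∈ ({a, b, c} : Finset V), v ∈ L ∪ Z ∪ W) (hWN : ∀ v ∈ W, v ∉ L ∧ v ∉ K)
    (hcard : (W ∪ (Z \ K)).card ≤ 3) : SP R' S T := by
  have hNK : ∀ v ∈ ({a, b, c} : Finset V), v ∉ K := by
    intro v hv
    simp only [mem_insert, mem_singleton] at hv
    rcases hv with rfl | rfl | rfl <;> assumption
  refine ⟨insert x₀ (L \ K), W ∪ (Z \ K), hcard, ?_, ?_, ?_, ?_⟩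
  · rw [disjoint_left]
    intro x h1 h2
    rw [mem_insert, mem_sdiff] at h1
    rw [mem_union, mem_sdiff] at h2
    rcases h1 with rfl | h1
    · rcases h2 with h2 | h2
      · exact (hWN _ h2).2 hx
      · exact h2.2 hx
    · rcases h2 with h2 | h2
      · exact (hWN _ h2).1 h1.1
      · exact disjoint_left.mp hLZ h1.1 h2.1
  · intro x h1
    by_cases hxx : x = x₀
    · subst hxx; simp
    have h2 : x ∉ K := by
      have : x ∈ S \ {x₀} := by simp [h1, hxx]
      exact disjoint_left.mp hSK this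
    by_cases h3 : x ∈ ({a, b, c} : Finset V)
    · have := hN x h3
      simp only [mem_union] at this
      simp only [mem_union, mem_insert, mem_sdiff]
      tauto
    · have h4 : x ∈ S' := by
        apply hSS
        rw [mem_sdiff]
        refine ⟨h1, ?_⟩
        simp only [mem_insert, mem_singleton] at h3 ⊢
        tauto
      have := hS h4
      simp only [mem_union] at this
      simp only [mem_union, mem_insert, mem_sdiff]
      tauto
  · rw [disjoint_left]
    intro x h1 h2
    rw [mem_insert, mem_sdiff] at h1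
    rcases h1 with rfl | h1
    · exact disjoint_left.mp hTK h2 hx
    · exact disjoint_left.mp hT h1.1 h2
  · intro x h1 y hxy
    rw [mem_insert, mem_sdiff] at h1
    rcases hG x y hxy with ⟨h2, h3, h4⟩ | ⟨h2, h3⟩
    · have h5 : x ∈ L := by
        rcases h1 with rfl | h1
        · exact absurd hx h3
        · exact h1.1
      have := hcl x h5 y h2
      simp only [mem_union] at this
      simp only [mem_union, mem_insert, mem_sdiff]
      tauto
    · by_cases hy : y = x₀
      · subst hy; simp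
      · have h5 : y ∈ ({a, b, c} : Finset V) := by
          simp only [mem_insert, mem_singleton] at h3 ⊢
          tauto
        have h6 := hN y h5
        have h7 := hNK y h5
        simp only [mem_union] at h6
        simp only [mem_union, mem_insert, mem_sdiff]
        tauto

/-- Separations in which the gadget is on the right side; `W` is empty or one vertex. -/
theorem right_choice {V : Type} [Fintype V] [DecidableEq V] {R R' : V → V → Prop}
    {K S T L Z W : Finset V} {a b c x₀ : V} (hG : Gad R R' K a b c x₀)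
    (hx : x₀ ∈ K) (hxS : x₀ ∉ S)
    (hSK : Disjoint (S \ {x₀}) K)
    (hLZ : Disjoint L Z) (hS : S ⊆ L ∪ Z) (hT : Disjoint L T)
    (hcl : ∀ x ∈ L, ∀ y, R x y → y ∈ L ∪ Z)
    (hN : ∀ v ∈ ({a, b, c} : Finset V), v ∈ L → v ∈ W)
    (hcard : (W ∪ (Z \ K)).card ≤ 3) : SP R' S T := by
  refine ⟨(L \ K) \ W, W ∪ (Z \ K), hcard, ?_, ?_, ?_, ?_⟩
  · rw [disjoint_left]
    intro x h1 h2
    simp only [mem_union, mem_sdiff] at h1 h2
    rcases h2 with h2 | h2
    · exact h1.2 h2
    · exact disjoint_left.mp hLZ h1.1.1 h2.1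
  · intro x h1
    have hxx : x ≠ x₀ := by
      rintro rfl
      exact hxS h1
    have h2 : x ∉ K := by
      have : x ∈ S \ {x₀} := by simp [h1, hxx]
      exact disjoint_left.mp hSK this
    have := hS h1
    simp only [mem_union] at this
    simp only [mem_union, mem_sdiff]
    tauto
  · rw [disjoint_left]
    intro x h1 h2
    simp only [mem_sdiff] at h1
    exact disjoint_left.mp hT h1.1.1 h2
  · intro x h1 y hxy
    simp only [mem_sdiff] at h1
    rcases hG x y hxy with ⟨h2, h3, h4⟩ | ⟨h2, h3⟩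
    · have := hcl x h1.1.1 y h2
      simp only [mem_union] at this
      simp only [mem_union, mem_sdiff]
      tauto
    · exfalso
      by_cases hxx : x = x₀
      · subst hxx
        exact h1.1.2 hx
      · have h5 : x ∈ ({a, b, c} : Finset V) := by
          simp only [mem_insert, mem_singleton] at h2 ⊢
          tauto
        exact h1.2 (hN x h5 h1.1.1)

theorem card_aux {V : Type} [DecidableEq V] {K Z W : Finset V} (hZ : Z.card ≤ 3)
    (hW : W.card ≤ 1) (h : W = ∅ ∨ (K ∩ Z).Nonempty) : (W ∪ (Z \ K)).card ≤ 3 := by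
  rcases h with rfl | h
  · rw [empty_union]
    exact (card_le_card sdiff_subset).trans hZ
  · have h1 : (Z \ K).card < Z.card := by
      apply card_lt_card
      rw [ssubset_iff_of_subset sdiff_subset]
      obtain ⟨x, hx⟩ := h
      rw [mem_inter] at hx
      exact ⟨x, hx.2, fun h => (mem_sdiff.mp h).2 hx.1⟩
    have h2 := card_union_le W (Z \ K)
    omega

theorem gspg : G_SPG := by
  intro V _ _ R R' K S T S' a b c x₀ hG ha hb hc hx hP hTK hSK hSS hcase hSP
  obtain ⟨L, Z, hZ, hLZ, hS, hT, hcl⟩ := hSP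
  set N : Finset V := {a, b, c} with hNdef
  have hNK : ∀ v ∈ N, v ∉ K := by
    intro v hv
    simp only [hNdef, mem_insert, mem_singleton] at hv
    rcases hv with rfl | rfl | rfl <;> assumption
  have hN3 : N.card ≤ 3 := card_le_three
  -- the general left choice
  have hleft : (N \ (L ∪ Z)).card ≤ 1 → (N \ (L ∪ Z) = ∅ ∨ (K ∩ Z).Nonempty) → SP R' S T := by
    intro h1 h2
    refine left_choice (W := N \ (L ∪ Z)) hG ha hb hc hx hTK hSK hSS hLZ hS hT hcl ?_ ?_
      (card_aux hZ h1 h2)
    · intro v hv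
      by_cases h3 : v ∈ L ∪ Z
      · exact mem_union_left _ h3
      · exact mem_union_right _ (mem_sdiff.mpr ⟨hv, h3⟩)
    · intro v hv
      rw [mem_sdiff, mem_union] at hv
      exact ⟨fun h => hv.2 (Or.inl h), hNK v hv.1⟩
  rcases hcase with ⟨rfl, hxS⟩ | ⟨h2, h3⟩
  · have hright : (N ∩ L).card ≤ 1 → (N ∩ L = ∅ ∨ (K ∩ Z).Nonempty) → SP R' S' T := by
      intro h1 h2
      refine right_choice (W := N ∩ L) hG hx hxS hSK hLZ hS hT hcl ?_ (card_aux hZ h1 h2)
      intro v hv hvL
      exact mem_inter.mpr ⟨hv, hvL⟩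
    by_cases hR0 : N \ (L ∪ Z) = ∅
    · exact hleft (by rw [hR0]; simp) (Or.inl hR0)
    by_cases hL0 : N ∩ L = ∅
    · exact hright (by rw [hL0]; simp) (Or.inl hL0)
    have hKZ : (K ∩ Z).Nonempty := by
      by_contra hcon
      rw [not_nonempty_iff_eq_empty, ← disjoint_iff_inter_eq_empty] at hcon
      obtain ⟨k1, k2⟩ := hP L Z hLZ hcon hcl
      by_cases hx0 : x₀ ∈ L
      · apply hR0
        rw [sdiff_eq_empty_iff_subset]
        exact k1 ⟨x₀, mem_inter.mpr ⟨hx, hx0⟩⟩
      · apply hL0
        rw [← disjoint_iff_inter_eq_empty, disjoint_left]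
        exact k2 ⟨x₀, mem_sdiff.mpr ⟨hx, hx0⟩⟩
    have hsum : (N \ (L ∪ Z)).card + (N ∩ L).card ≤ 3 := by
      rw [← card_union_of_disjoint]
      · refine (card_le_card ?_).trans hN3
        exact union_subset sdiff_subset inter_subset_left
      · rw [disjoint_left]
        intro x h1 h2
        rw [mem_sdiff, mem_union] at h1
        rw [mem_inter] at h2
        exact h1.2 (Or.inl h2.2)
    have hRpos : 0 < (N \ (L ∪ Z)).card := card_pos.mpr (nonempty_iff_ne_empty.mpr hR0)
    have hLpos : 0 < (N ∩ L).card := card_pos.mpr (nonempty_iff_ne_empty.mpr hL0)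
    by_cases h1 : (N \ (L ∪ Z)).card ≤ 1
    · exact hleft h1 (Or.inr hKZ)
    · exact hright (by omega) (Or.inr hKZ)
  · have h1 : (N \ (L ∪ Z)).card ≤ 1 := by
      have h4 : N \ (L ∪ Z) ⊆ N \ (S' ∩ N) := by
        intro x hx
        rw [mem_sdiff] at hx ⊢
        exact ⟨hx.1, fun h => hx.2 (hS (mem_inter.mp h).1)⟩
      have h5 := card_le_card h4
      rw [card_sdiff_of_subset inter_subset_right] at h5
      omega
    refine hleft h1 ?_
    by_contra hcon
    push Not at hcon
    obtain ⟨k0, hcon⟩ := hcon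
    have hKZ : Disjoint K Z := by
      rw [disjoint_iff_inter_eq_empty]
      simpa using hcon
    obtain ⟨k1, -⟩ := hP L Z hLZ hKZ hcl
    obtain ⟨x, hx'⟩ := h3
    rw [mem_inter] at hx'
    have hxL : x ∈ L := by
      rcases mem_union.mp (hS hx'.1) with h | h
      · exact h
      · exact absurd h (disjoint_left.mp hKZ hx'.2)
    have := k1 ⟨x, mem_inter.mpr ⟨hx'.2, hxL⟩⟩
    have h6 : N \ (L ∪ Z) = ∅ := by
      rw [sdiff_eq_empty_iff_subset]
      exact this
    simp [h6] at k0

end Pool.Agent.Helper3.RL
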